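import Mathlib
import Pool.Agent.Lib_helper13.PL.FOU2

/-!
# Two characters cannot both have a large Fourier coefficient
-/

set_option autoImplicit false
set_option linter.unusedSectionVars false

namespace Pool.Agent.SCH

open Finset Pool.Agent.Lib_helper13.PL

universe u

section
variable {G : Type u} [AddCommGroup G] [Fintype G] [DecidableEq G]

lemma sum_re_char (θ : AddChar G ℂ) :
    ∑ x : G, (θ x).re = if θ = 0 then (Fintype.card G : ℝ) else 0 := by
  have h := AddChar.sum_eq_ite θ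
  have h2 := congrArg Complex.re h
  rw [Complex.re_sum] at h2
  rw [h2]
  split_ifs <;> simp

lemma sum_re_char_nonneg (θ : AddChar G ℂ) : 0 ≤ ∑ x : G, (θ x).re := by
  rw [sum_re_char]
  split_ifs
  · positivity
  · exact le_rfl

lemma sum_re_char_zero {θ : AddChar G ℂ} (h : θ ≠ 0) : ∑ x : G, (θ x).re = 0 := by
  rw [sum_re_char, if_neg h]

/-- the product formula for the real parts -/
lemma re_mul_re (θ η : AddChar G ℂ) (x : G) :
    (θ x).re * (η x).re = (((θ + η) x).re + ((θ - η) x).re) / 2 := by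
  have h1 : (θ + η) x = θ x * η x := AddChar.add_apply _ _ _
  have h2 : (θ - η) x = θ x * (starRingEnd ℂ) (η x) := by
    rw [sub_eq_add_neg, AddChar.add_apply, AddChar.neg_apply, AddChar.map_neg_eq_conj]
  rw [h1, h2]
  simp only [Complex.mul_re, Complex.conj_re, Complex.conj_im]
  ring

lemma re_sq_char (θ : AddChar G ℂ) (x : G) : ((θ + θ) x).re = 2 * (θ x).re ^ 2 - 1 := by
  have h := re_mul_re θ θ x
  rw [sub_self, AddChar.zero_apply, Complex.one_re] at h
  nlinarith [h]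

lemma re_le_one (θ : AddChar G ℂ) (x : G) : (θ x).re ≤ 1 := by
  have h := Complex.re_le_norm (θ x)
  rwa [AddChar.norm_apply] at h

lemma neg_one_le_re (θ : AddChar G ℂ) (x : G) : -1 ≤ (θ x).re := by
  have h := Complex.abs_re_le_norm (θ x)
  rw [AddChar.norm_apply] at h
  exact (abs_le.mp h).1

lemma sum_sq (χ ψ : AddChar G ℂ) (x : G) :
    ((χ x).re + (ψ x).re) ^ 2 = (1 + ((χ + ψ) x).re) * (1 + ((χ - ψ) x).re) := by
  have h1 := re_mul_re (χ + ψ) (χ - ψ) x
  have h2 := re_sq_char χ x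
  have h3 := re_sq_char ψ x
  have h4 := re_mul_re χ ψ x
  have e1 : χ + ψ + (χ - ψ) = χ + χ := by abel
  have e2 : χ + ψ - (χ - ψ) = ψ + ψ := by abel
  rw [e1, e2] at h1
  nlinarith [h1, h2, h3, h4]

/-- the majorant of `√((1 + c) / 2)` -/
noncomputable def maj (c : ℝ) : ℝ := 2 / 3 + 7 / 18 * c - 1 / 18 * (2 * c ^ 2 - 1)

lemma maj_nonneg {c : ℝ} (h1 : -1 ≤ c) (h2 : c ≤ 1) : 0 ≤ maj c := by
  unfold maj
  nlinarith [mul_nonneg (sub_nonneg.mpr h2) (by linarith : (0:ℝ) ≤ 1 + c)]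

lemma maj_sq {c : ℝ} (h1 : -1 ≤ c) (h2 : c ≤ 1) : (1 + c) / 2 ≤ maj c ^ 2 := by
  set s := √((1 + c) / 2) with hs
  have hs0 : 0 ≤ s := Real.sqrt_nonneg _
  have hs2 : s ^ 2 = (1 + c) / 2 := Real.sq_sqrt (by linarith)
  have hs1 : s ≤ 1 := by
    rw [← Real.sqrt_one]
    exact Real.sqrt_le_sqrt (by linarith)
  have hc : c = 2 * s ^ 2 - 1 := by linarith
  have h3 : s ≤ maj c := by
    have : maj c - s = 4 / 9 * (s - 1 / 2) ^ 2 * (1 - s) * (s + 2) := by
      unfold maj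
      rw [hc]
      ring
    have h4 : 0 ≤ 4 / 9 * (s - 1 / 2) ^ 2 * (1 - s) * (s + 2) := by
      apply mul_nonneg
      · apply mul_nonneg
        · positivity
        · linarith
      · linarith
    linarith
  rw [← hs2]
  exact pow_le_pow_left₀ hs0 h3 2

lemma abs_sum_le (χ ψ : AddChar G ℂ) (x : G) :
    |(χ x).re + (ψ x).re| ≤ 2 * (maj ((χ + ψ) x).re * maj ((χ - ψ) x).re) := by
  have a1 := neg_one_le_re (χ + ψ) x
  have a2 := re_le_one (χ + ψ) x
  have a3 := neg_one_le_re (χ - ψ) x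
  have a4 := re_le_one (χ - ψ) x
  have m1 := maj_nonneg a1 a2
  have m2 := maj_nonneg a3 a4
  have s1 := maj_sq a1 a2
  have s2 := maj_sq a3 a4
  apply abs_le_of_sq_le_sq _ (by positivity)
  rw [sum_sq]
  have h : ((1 + ((χ + ψ) x).re) / 2) * ((1 + ((χ - ψ) x).re) / 2) ≤
      maj ((χ + ψ) x).re ^ 2 * maj ((χ - ψ) x).re ^ 2 :=
    mul_le_mul s1 s2 (by linarith) (by positivity)
  nlinarith [h]

/-- characters of odd order groups have no 2-torsion -/
lemma two_ne {θ : AddChar G ℂ} (hodd : Odd (Fintype.card G)) (h : θ ≠ 0) : θ + θ ≠ 0 := by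
  intro h2
  apply h
  obtain ⟨k, hk⟩ := hodd
  ext x
  rw [AddChar.zero_apply]
  have h3 : (θ x) ^ 2 = 1 := by
    have := congrArg (fun η : AddChar G ℂ => η x) h2
    simpa [AddChar.add_apply, pow_two] using this
  have h4 : (θ x) ^ (Fintype.card G) = 1 := by
    rw [← AddChar.map_nsmul_eq_pow, card_nsmul_eq_zero, AddChar.map_zero_eq_one]
  rw [hk, pow_add, pow_mul, h3, one_pow, one_mul, pow_one] at h4
  exact h4

/-- **two characters** -/
theorem two_char (hodd : Odd (Fintype.card G)) {χ ψ : AddChar G ℂ} (hχ : χ ≠ 0) (hψ : ψ ≠ 0)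
    (h1 : ψ ≠ χ) (h2 : ψ ≠ -χ) (B : Finset G) :
    (hat B χ).re + (hat B ψ).re ≤ 4 / 9 * (Fintype.card G : ℝ) := by
  have hα : χ + ψ ≠ 0 := fun h => h2 (by rw [eq_neg_iff_add_eq_zero, add_comm]; exact h)
  have hβ : χ - ψ ≠ 0 := fun h => h1 (sub_eq_zero.mp h).symm
  set g : G → ℝ := fun x => (χ x).re + (ψ x).re with hg
  have hsum0 : ∑ x : G, g x = 0 := by
    rw [hg, Finset.sum_add_distrib, sum_re_char_zero hχ, sum_re_char_zero hψ, add_zero]
  have hB : (hat B χ).re + (hat B ψ).re = ∑ x ∈ B, g x := by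
    unfold hat
    rw [Complex.re_sum, Complex.re_sum, ← Finset.sum_add_distrib]
  have h3 : 2 * ∑ x ∈ B, g x ≤ ∑ x : G, |g x| := by
    have e1 : ∑ x ∈ B, g x + ∑ x ∈ Bᶜ, g x = 0 := by
      rw [Finset.sum_add_sum_compl]; exact hsum0
    have e2 : ∑ x ∈ B, |g x| + ∑ x ∈ Bᶜ, |g x| = ∑ x : G, |g x| := Finset.sum_add_sum_compl _ _
    have e3 : ∑ x ∈ B, g x ≤ ∑ x ∈ B, |g x| := Finset.sum_le_sum fun x _ => le_abs_self _
    have e4 : -∑ x ∈ Bᶜ, g x ≤ ∑ x ∈ Bᶜ, |g x| := by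
      rw [← Finset.sum_neg_distrib]
      exact Finset.sum_le_sum fun x _ => neg_le_abs _
    linarith
  have h4 : ∑ x : G, |g x| ≤ ∑ x : G, 2 * (maj ((χ + ψ) x).re * maj ((χ - ψ) x).re) :=
    Finset.sum_le_sum fun x _ => abs_sum_le χ ψ x
  -- expansion of the product
  set α := χ + ψ with hαd
  set β := χ - ψ with hβd
  have hexp : ∀ x : G, maj (α x).re * maj (β x).re =
      4 / 9 + 7 / 27 * (α x).re + 7 / 27 * (β x).re - 1 / 27 * ((α + α) x).re
        - 1 / 27 * ((β + β) x).re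
        + 49 / 648 * (((α + β) x).re + ((α - β) x).re)
        - 7 / 648 * (((α + (β + β)) x).re + ((α - (β + β)) x).re)
        - 7 / 648 * ((((α + α) + β) x).re + (((α + α) - β) x).re)
        + 1 / 648 * ((((α + α) + (β + β)) x).re + (((α + α) - (β + β)) x).re) := by
    intro x
    have p1 := re_mul_re α β x
    have p2 := re_mul_re α (β + β) x
    have p3 := re_mul_re (α + α) β x
    have p4 := re_mul_re (α + α) (β + β) x
    have q1 := re_sq_char α x
    have q2 := re_sq_char β x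
    have e1 : ((α + β) x).re + ((α - β) x).re = 2 * ((α x).re * (β x).re) := by linarith
    have e2 : ((α + (β + β)) x).re + ((α - (β + β)) x).re = 2 * ((α x).re * ((β + β) x).re) := by
      linarith
    have e3 : (((α + α) + β) x).re + (((α + α) - β) x).re = 2 * (((α + α) x).re * (β x).re) := by
      linarith
    have e4 : (((α + α) + (β + β)) x).re + (((α + α) - (β + β)) x).re =
        2 * (((α + α) x).re * ((β + β) x).re) := by linarith
    rw [e1, e2, e3, e4, q1, q2]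
    unfold maj
    ring
  have hαα : α + α ≠ 0 := two_ne hodd hα
  have hββ : β + β ≠ 0 := two_ne hodd hβ
  have hs1 : α + β ≠ 0 := by
    have : α + β = χ + χ := by rw [hαd, hβd]; abel
    rw [this]; exact two_ne hodd hχ
  have hs2 : α - β ≠ 0 := by
    have : α - β = ψ + ψ := by rw [hαd, hβd]; abel
    rw [this]; exact two_ne hodd hψ
  have hs3 : (α + α) + (β + β) ≠ 0 := by
    have : (α + α) + (β + β) = (χ + χ) + (χ + χ) := by rw [hαd, hβd]; abel
    rw [this]; exact two_ne hodd (two_ne hodd hχ)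
  have hs4 : (α + α) - (β + β) ≠ 0 := by
    have : (α + α) - (β + β) = (ψ + ψ) + (ψ + ψ) := by rw [hαd, hβd]; abel
    rw [this]; exact two_ne hodd (two_ne hodd hψ)
  have h5 : ∑ x : G, maj (α x).re * maj (β x).re ≤ 4 / 9 * (Fintype.card G : ℝ) := by
    rw [Finset.sum_congr rfl fun x _ => hexp x]
    simp only [Finset.sum_add_distrib, Finset.sum_sub_distrib, ← Finset.mul_sum]
    rw [sum_re_char_zero hα, sum_re_char_zero hβ, sum_re_char_zero hαα, sum_re_char_zero hββ,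
      sum_re_char_zero hs1, sum_re_char_zero hs2, sum_re_char_zero hs3, sum_re_char_zero hs4]
    have n1 := sum_re_char_nonneg (α + (β + β))
    have n2 := sum_re_char_nonneg (α - (β + β))
    have n3 := sum_re_char_nonneg ((α + α) + β)
    have n4 := sum_re_char_nonneg ((α + α) - β)
    rw [Finset.sum_const, Finset.card_univ, nsmul_eq_mul]
    nlinarith [n1, n2, n3, n4]
  rw [← Finset.mul_sum] at h4
  rw [hB]
  linarith

/-- the cubic identity with the pair `±χ` taken out -/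
theorem energy (hodd : Odd (Fintype.card G)) (B : Finset G) {χ : AddChar G ℂ} (hχ : χ ≠ 0)
    {R' : ℝ} (hR' : ∀ ψ : AddChar G ℂ, ψ ≠ 0 → ψ ≠ χ → ψ ≠ -χ → (hat B ψ).re ≤ R') :
    (Fintype.card G : ℝ) * (TT B B B : ℤ) ≤ (B.card : ℝ) ^ 3 +
      2 * ‖hat B χ‖ ^ 2 * ((hat B χ).re - R') +
      R' * ((Fintype.card G : ℝ) * B.card - (B.card : ℝ) ^ 2) := by
  classical
  have hne : -χ ≠ χ := by
    intro h
    apply two_ne hodd hχ
    rw [← neg_eq_iff_add_eq_zero]
    exact h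
  have hnz : -χ ≠ 0 := neg_ne_zero.mpr hχ
  have hconj : hat B (-χ) = (starRingEnd ℂ) (hat B χ) := by
    rw [hat_conj]
    unfold hat
    exact Finset.sum_congr rfl fun x _ => AddChar.neg_apply _ _
  have hns : Complex.normSq (hat B (-χ)) = Complex.normSq (hat B χ) := by
    rw [hconj, Complex.normSq_conj]
  have hre : (hat B (-χ)).re = (hat B χ).re := by rw [hconj, Complex.conj_re]
  have h0 : hat B (0 : AddChar G ℂ) = (B.card : ℂ) := hat_zero B
  have h0' : Complex.normSq (hat B (0 : AddChar G ℂ)) = (B.card : ℝ) ^ 2 := by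
    rw [h0, Complex.normSq_natCast]
    ring
  have h0'' : (hat B (0 : AddChar G ℂ)).re = (B.card : ℝ) := by
    rw [h0, Complex.natCast_re]
  have m1 : χ ∈ (Finset.univ : Finset (AddChar G ℂ)).erase 0 :=
    Finset.mem_erase.2 ⟨hχ, Finset.mem_univ _⟩
  have m2 : -χ ∈ ((Finset.univ : Finset (AddChar G ℂ)).erase 0).erase χ :=
    Finset.mem_erase.2 ⟨hne, Finset.mem_erase.2 ⟨hnz, Finset.mem_univ _⟩⟩
  have hp := parseval B
  have hc := cubic B
  rw [← Finset.add_sum_erase _ _ (Finset.mem_univ (0 : AddChar G ℂ)),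
    ← Finset.add_sum_erase _ _ m1, ← Finset.add_sum_erase _ _ m2] at hp hc
  rw [h0', hns] at hp
  rw [h0', h0'', hns, hre] at hc
  set S := (((Finset.univ : Finset (AddChar G ℂ)).erase 0).erase χ).erase (-χ) with hS
  have h1 : ∑ ψ ∈ S, Complex.normSq (hat B ψ) * (hat B ψ).re ≤
      ∑ ψ ∈ S, Complex.normSq (hat B ψ) * R' := by
    refine Finset.sum_le_sum fun ψ hψ => ?_
    rw [hS, Finset.mem_erase, Finset.mem_erase, Finset.mem_erase] at hψ
    exact mul_le_mul_of_nonneg_left (hR' ψ hψ.2.2.1 hψ.2.1 hψ.1) (Complex.normSq_nonneg _)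
  rw [← Finset.sum_mul] at h1
  have h2 : ∑ ψ ∈ S, Complex.normSq (hat B ψ) = (Fintype.card G : ℝ) * B.card - (B.card : ℝ) ^ 2
      - 2 * Complex.normSq (hat B χ) := by linarith
  rw [h2] at h1
  have e : ((Fintype.card G : ℝ) * B.card - (B.card : ℝ) ^ 2 - 2 * Complex.normSq (hat B χ)) * R' =
      R' * ((Fintype.card G : ℝ) * B.card - (B.card : ℝ) ^ 2)
        - 2 * Complex.normSq (hat B χ) * R' := by ring
  rw [e] at h1
  rw [← hc, Complex.sq_norm]
  have e2 : (B.card : ℝ) ^ 2 * B.card = (B.card : ℝ) ^ 3 := by ring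
  have e3 : 2 * Complex.normSq (hat B χ) * ((hat B χ).re - R') =
      2 * (Complex.normSq (hat B χ) * (hat B χ).re) - 2 * Complex.normSq (hat B χ) * R' := by ring
  rw [e2, e3]
  linarith

/-- the Fourier inequality with the pair `±χ` taken out, in terms of `FF` -/
theorem energy_FF (hodd : Odd (Fintype.card G)) (B : Finset G) {χ : AddChar G ℂ} (hχ : χ ≠ 0)
    {R' : ℝ} (hR' : ∀ ψ : AddChar G ℂ, ψ ≠ 0 → ψ ≠ χ → ψ ≠ -χ → (hat B ψ).re ≤ R') :
    (Fintype.card G : ℝ) * (((GL.FF B : ℤ) : ℝ) + 3 * (B.card : ℝ) ^ 2) ≤ 4 * (B.card : ℝ) ^ 3 +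
      8 * ‖hat B χ‖ ^ 2 * ((hat B χ).re - R') +
      4 * R' * ((Fintype.card G : ℝ) * B.card - (B.card : ℝ) ^ 2) := by
  have h := energy hodd B hχ hR'
  rw [TT_eq_sch] at h
  have e : ((GL.FF B : ℤ) : ℝ) + 3 * (B.card : ℝ) ^ 2 = 4 * ((GL.sch B : ℤ) : ℝ) := by
    unfold GL.FF
    push_cast
    ring
  rw [e]
  nlinarith [h]

/-- the Fourier inequality with the two character bound -/
theorem fou_two (hodd : Odd (Fintype.card G)) (B : Finset G) {χ : AddChar G ℂ} (hχ : χ ≠ 0) :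
    (Fintype.card G : ℝ) * (((GL.FF B : ℤ) : ℝ) + 3 * (B.card : ℝ) ^ 2) ≤ 4 * (B.card : ℝ) ^ 3 +
      8 * ‖hat B χ‖ ^ 2 * (2 * (hat B χ).re - 4 / 9 * (Fintype.card G : ℝ)) +
      4 * (4 / 9 * (Fintype.card G : ℝ) - (hat B χ).re) *
        ((Fintype.card G : ℝ) * B.card - (B.card : ℝ) ^ 2) := by
  have h := energy_FF hodd B hχ (R' := 4 / 9 * (Fintype.card G : ℝ) - (hat B χ).re)
    (fun ψ h0 h1 h2 => by have := two_char hodd hχ h0 h1 h2 B; linarith)
  have e : (hat B χ).re - (4 / 9 * (Fintype.card G : ℝ) - (hat B χ).re) =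
      2 * (hat B χ).re - 4 / 9 * (Fintype.card G : ℝ) := by ring
  rw [e] at h
  exact h

end

end Pool.Agent.SCH
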