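import Mathlib
import Pool.Agent.Lib_helper13.SDC.TwoChar

/-!
# Two characters cannot both have a large Fourier coefficient: the form with absolute values
-/

set_option autoImplicit false
set_option linter.unusedSectionVars false

namespace Pool.Agent.SCH

open Finset Pool.Agent.Lib_helper13.PL

universe u

/-- the value at the edge -/
lemma edge_nonneg {t : ℝ} (h0 : 0 ≤ t) (h2 : t ≤ 2) :
    0 ≤ 1 / 70 * (t - 1 / 3) ^ 2 +
      (2 - t) ^ 2 / 2 * (103 / 420 - 34 / 625 * ((2 - t) ^ 2 / 2) - 4 * (34 / 625) * t) := by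
  have hq : 0 ≤ 0.18527 - 0.0331024 * t - 0.0136 * t ^ 2 := by nlinarith
  nlinarith [mul_nonneg (sq_nonneg (t - 1.217)) hq, sq_nonneg (t - 1.217)]

/-- the real inequality behind the majorant -/
lemma maj2 {a b : ℝ} (ha : 0 ≤ a) (hb : 0 ≤ b) (ha2 : a ^ 2 ≤ 2) (hb2 : b ^ 2 ≤ 2) :
    a * b / 2 ≤ (1 / 2 + 2 / 315) + 109 / 420 * ((a ^ 2 - 1) + (b ^ 2 - 1)) +
      (1 / 70 + 68 / 625) * ((a ^ 2 - 1) * (b ^ 2 - 1)) -
      34 / 625 * ((a ^ 2 - 1) ^ 2 + (b ^ 2 - 1) ^ 2) := by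
  obtain ⟨t, ht⟩ : ∃ t, t = a * b := ⟨_, rfl⟩
  obtain ⟨w, hw⟩ : ∃ w, w = (a - b) ^ 2 := ⟨_, rfl⟩
  have ht0 : 0 ≤ t := by rw [ht]; exact mul_nonneg ha hb
  have hw0 : 0 ≤ w := by rw [hw]; exact sq_nonneg _
  have ht2 : t ≤ 2 := by nlinarith [sq_nonneg (a - b)]
  have hwu : w ≤ (2 - t) ^ 2 / 2 := by
    have := mul_nonneg (sub_nonneg.2 ha2) (sub_nonneg.2 hb2)
    rw [ht, hw]
    nlinarith
  have key : (1 / 2 + 2 / 315) + 109 / 420 * ((a ^ 2 - 1) + (b ^ 2 - 1)) +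
      (1 / 70 + 68 / 625) * ((a ^ 2 - 1) * (b ^ 2 - 1)) -
      34 / 625 * ((a ^ 2 - 1) ^ 2 + (b ^ 2 - 1) ^ 2) - a * b / 2 =
      1 / 70 * (t - 1 / 3) ^ 2 + w * (103 / 420 - 34 / 625 * w - 4 * (34 / 625) * t) := by
    rw [ht, hw]
    ring
  have hmain : 0 ≤ 1 / 70 * (t - 1 / 3) ^ 2 +
      w * (103 / 420 - 34 / 625 * w - 4 * (34 / 625) * t) := by
    rcases le_or_gt 0 (103 / 420 - 34 / 625 * w - 4 * (34 / 625) * t) with h | h
    · have := mul_nonneg hw0 h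
      positivity
    · have he := edge_nonneg ht0 ht2
      obtain ⟨U, hU⟩ : ∃ U, U = (2 - t) ^ 2 / 2 := ⟨_, rfl⟩
      rw [← hU] at he hwu
      have h1 : U * (103 / 420 - 34 / 625 * U - 4 * (34 / 625) * t) ≤
          w * (103 / 420 - 34 / 625 * w - 4 * (34 / 625) * t) := by
        have h2 : U * (103 / 420 - 34 / 625 * U - 4 * (34 / 625) * t) ≤
            U * (103 / 420 - 34 / 625 * w - 4 * (34 / 625) * t) :=
          mul_le_mul_of_nonneg_left (by linarith) (by linarith)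
        have h3 : U * (103 / 420 - 34 / 625 * w - 4 * (34 / 625) * t) ≤
            w * (103 / 420 - 34 / 625 * w - 4 * (34 / 625) * t) :=
          mul_le_mul_of_nonpos_right hwu h.le
        linarith
      linarith
  linarith

/-- the majorant for two complex numbers of absolute value one -/
lemma maj2_unit {z w : ℂ} (hz : ‖z‖ = 1) (hw : ‖w‖ = 1) :
    |z.re + w.re| ≤ 2 * ((1 / 2 + 2 / 315) + 109 / 420 * ((z * w).re +
        (z * (starRingEnd ℂ) w).re) + (1 / 140 + 34 / 625) * ((z * z).re + (w * w).re) -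
      34 / 625 * (1 + (((z * w) * (z * w)).re + ((z * (starRingEnd ℂ) w) *
        (z * (starRingEnd ℂ) w)).re) / 2)) := by
  obtain ⟨x, y⟩ := z
  obtain ⟨c, d⟩ := w
  have h1 : x ^ 2 + y ^ 2 = 1 := by
    have := Complex.sq_norm (⟨x, y⟩ : ℂ)
    rw [hz, Complex.normSq_mk] at this
    linarith
  have h2 : c ^ 2 + d ^ 2 = 1 := by
    have := Complex.sq_norm (⟨c, d⟩ : ℂ)
    rw [hw, Complex.normSq_mk] at this
    linarith
  simp only [Complex.mul_re, Complex.mul_im, Complex.conj_re, Complex.conj_im]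
  obtain ⟨P, hP⟩ : ∃ P, P = x * c - y * d := ⟨_, rfl⟩
  obtain ⟨Q, hQ⟩ : ∃ Q, Q = x * c + y * d := ⟨_, rfl⟩
  have hy : y ^ 2 = 1 - x ^ 2 := by linarith
  have hd : d ^ 2 = 1 - c ^ 2 := by linarith
  have hP1 : P ^ 2 ≤ 1 := by
    have : P ^ 2 + (x * d + y * c) ^ 2 = 1 := by
      have : P ^ 2 + (x * d + y * c) ^ 2 = (x ^ 2 + y ^ 2) * (c ^ 2 + d ^ 2) := by rw [hP]; ring
      rw [this, h1, h2]; norm_num
    nlinarith [sq_nonneg (x * d + y * c)]
  have hQ1 : Q ^ 2 ≤ 1 := by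
    have : Q ^ 2 + (x * d - y * c) ^ 2 = 1 := by
      have : Q ^ 2 + (x * d - y * c) ^ 2 = (x ^ 2 + y ^ 2) * (c ^ 2 + d ^ 2) := by rw [hQ]; ring
      rw [this, h1, h2]; norm_num
    nlinarith [sq_nonneg (x * d - y * c)]
  have hPa := abs_le_of_sq_le_sq' (by simpa using hP1 : P ^ 2 ≤ 1 ^ 2) zero_le_one
  have hQa := abs_le_of_sq_le_sq' (by simpa using hQ1 : Q ^ 2 ≤ 1 ^ 2) zero_le_one
  have ha2 : √(1 + P) ^ 2 = 1 + P := Real.sq_sqrt (by linarith)
  have hb2 : √(1 + Q) ^ 2 = 1 + Q := Real.sq_sqrt (by linarith)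
  have hsq : (x + c) ^ 2 = (1 + P) * (1 + Q) := by
    have e : (1 + P) * (1 + Q) = 1 + 2 * (x * c) + x ^ 2 * c ^ 2 - y ^ 2 * d ^ 2 := by
      rw [hP, hQ]; ring
    rw [e, hy, hd]; ring
  have habs : |x + c| = √(1 + P) * √(1 + Q) := by
    rw [← Real.sqrt_sq_eq_abs, hsq, Real.sqrt_mul (by linarith)]
  have hm := maj2 (Real.sqrt_nonneg (1 + P)) (Real.sqrt_nonneg (1 + Q)) (by rw [ha2]; linarith)
    (by rw [hb2]; linarith)
  rw [ha2, hb2, ← habs] at hm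
  have e1 : P * Q = x ^ 2 + c ^ 2 - 1 := by
    have : P * Q = x ^ 2 * c ^ 2 - y ^ 2 * d ^ 2 := by rw [hP, hQ]; ring
    rw [this, hy, hd]; ring
  have e2 : x * x - y * y = 2 * x ^ 2 - 1 := by nlinarith
  have e3 : c * c - d * d = 2 * c ^ 2 - 1 := by nlinarith
  have e4 : (x * c - y * d) * (x * c - y * d) - (x * d + y * c) * (x * d + y * c) =
      2 * P ^ 2 - 1 := by
    have h5 : (x * d + y * c) ^ 2 = 1 - P ^ 2 := by
      have : P ^ 2 + (x * d + y * c) ^ 2 = (x ^ 2 + y ^ 2) * (c ^ 2 + d ^ 2) := by rw [hP]; ring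
      rw [h1, h2] at this; linarith
    have h6 : (x * c - y * d) * (x * c - y * d) - (x * d + y * c) * (x * d + y * c) =
      P ^ 2 - (x * d + y * c) ^ 2 := by rw [hP]; ring
    rw [h6, h5]; ring
  have e5 : (x * c - y * -d) * (x * c - y * -d) - (x * -d + y * c) * (x * -d + y * c) =
      2 * Q ^ 2 - 1 := by
    have h5 : (x * d - y * c) ^ 2 = 1 - Q ^ 2 := by
      have : Q ^ 2 + (x * d - y * c) ^ 2 = (x ^ 2 + y ^ 2) * (c ^ 2 + d ^ 2) := by rw [hQ]; ring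
      rw [h1, h2] at this; linarith
    have h6 : (x * c - y * -d) * (x * c - y * -d) - (x * -d + y * c) * (x * -d + y * c) =
      Q ^ 2 - (x * d - y * c) ^ 2 := by rw [hQ]; ring
    rw [h6, h5]; ring
  rw [e2, e3, e4, e5, ← hP]
  have e6 : x * c - y * -d = Q := by rw [hQ]; ring
  rw [e6]
  nlinarith [hm, e1]

section
variable {G : Type u} [AddCommGroup G] [Fintype G] [DecidableEq G]

lemma sum_mul_char_zero {θ : AddChar G ℂ} (h : θ ≠ 0) (c : ℂ) : ∑ x : G, (c * θ x).re = 0 := by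
  rw [← Complex.re_sum, ← Finset.mul_sum, AddChar.sum_eq_zero_iff_ne_zero.2 h, mul_zero,
    Complex.zero_re]

/-- **two characters**, the form with absolute values -/
theorem two_norm (hodd : Odd (Fintype.card G)) {χ ψ : AddChar G ℂ} (hχ : χ ≠ 0) (hψ : ψ ≠ 0)
    (h1 : ψ ≠ χ) (h2 : ψ ≠ -χ) (B : Finset G) :
    ‖hat B χ‖ + ‖hat B ψ‖ ≤ 0.452 * (Fintype.card G : ℝ) := by
  have hα : χ + ψ ≠ 0 := fun h => h2 (by rw [eq_neg_iff_add_eq_zero, add_comm]; exact h)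
  have hβ : χ - ψ ≠ 0 := fun h => h1 (sub_eq_zero.mp h).symm
  obtain ⟨c, hc, hcn⟩ := Complex.exists_norm_eq_mul_self (hat B χ)
  obtain ⟨d, hd, hdn⟩ := Complex.exists_norm_eq_mul_self (hat B ψ)
  set g : G → ℝ := fun x => (c * χ x).re + (d * ψ x).re with hg
  have hsum0 : ∑ x : G, g x = 0 := by
    rw [hg, Finset.sum_add_distrib, sum_mul_char_zero hχ, sum_mul_char_zero hψ, add_zero]
  have hB : ‖hat B χ‖ + ‖hat B ψ‖ = ∑ x ∈ B, g x := by
    have e1 : ‖hat B χ‖ = ∑ x ∈ B, (c * χ x).re := by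
      rw [← Complex.re_sum, ← Finset.mul_sum]
      have := congrArg Complex.re hcn
      rw [Complex.ofReal_re] at this
      exact this
    have e2 : ‖hat B ψ‖ = ∑ x ∈ B, (d * ψ x).re := by
      rw [← Complex.re_sum, ← Finset.mul_sum]
      have := congrArg Complex.re hdn
      rw [Complex.ofReal_re] at this
      exact this
    rw [e1, e2, ← Finset.sum_add_distrib]
  have h3 : 2 * ∑ x ∈ B, g x ≤ ∑ x : G, |g x| := by
    have e1 : ∑ x ∈ B, g x + ∑ x ∈ Bᶜ, g x = 0 := by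
      rw [Finset.sum_add_sum_compl]; exact hsum0
    have e2 : ∑ x ∈ B, |g x| + ∑ x ∈ Bᶜ, |g x| = ∑ x : G, |g x| := Finset.sum_add_sum_compl _ _
    have e3 : ∑ x ∈ B, g x ≤ ∑ x ∈ B, |g x| := Finset.sum_le_sum fun x _ => le_abs_self _
    have e4 : -∑ x ∈ Bᶜ, g x ≤ ∑ x ∈ Bᶜ, |g x| := by
      rw [← Finset.sum_neg_distrib]
      exact Finset.sum_le_sum fun x _ => neg_le_abs _
    linarith
  have hpt : ∀ x : G, |g x| ≤ 2 * ((1 / 2 + 2 / 315) + 109 / 420 * (((c * d) * (χ + ψ) x).re +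
        ((c * (starRingEnd ℂ) d) * (χ - ψ) x).re) +
      (1 / 140 + 34 / 625) * (((c * c) * (χ + χ) x).re + ((d * d) * (ψ + ψ) x).re) -
      34 / 625 * (1 + ((((c * d) * (c * d)) * ((χ + ψ) + (χ + ψ)) x).re +
        (((c * (starRingEnd ℂ) d) * (c * (starRingEnd ℂ) d)) *
          ((χ - ψ) + (χ - ψ)) x).re) / 2)) := by
    intro x
    have hz : ‖c * χ x‖ = 1 := by rw [norm_mul, hc, AddChar.norm_apply, one_mul]
    have hw : ‖d * ψ x‖ = 1 := by rw [norm_mul, hd, AddChar.norm_apply, one_mul]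
    have hsub : (χ - ψ) x = χ x * (starRingEnd ℂ) (ψ x) := by
      rw [sub_eq_add_neg, AddChar.add_apply, AddChar.neg_apply, AddChar.map_neg_eq_conj]
    have h := maj2_unit hz hw
    have e1 : (c * χ x) * (d * ψ x) = (c * d) * (χ + ψ) x := by
      rw [AddChar.add_apply]; ring
    have e2 : (c * χ x) * (starRingEnd ℂ) (d * ψ x) = (c * (starRingEnd ℂ) d) * (χ - ψ) x := by
      rw [hsub, map_mul]; ring
    have e3 : (c * χ x) * (c * χ x) = (c * c) * (χ + χ) x := by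
      rw [AddChar.add_apply]; ring
    have e4 : (d * ψ x) * (d * ψ x) = (d * d) * (ψ + ψ) x := by
      rw [AddChar.add_apply]; ring
    have e5 : ((c * d) * (χ + ψ) x) * ((c * d) * (χ + ψ) x) =
        ((c * d) * (c * d)) * ((χ + ψ) + (χ + ψ)) x := by
      rw [AddChar.add_apply (χ + ψ) (χ + ψ)]; ring
    have e6 : ((c * (starRingEnd ℂ) d) * (χ - ψ) x) * ((c * (starRingEnd ℂ) d) * (χ - ψ) x) =
        ((c * (starRingEnd ℂ) d) * (c * (starRingEnd ℂ) d)) * ((χ - ψ) + (χ - ψ)) x := by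
      rw [AddChar.add_apply (χ - ψ) (χ - ψ)]; ring
    rw [e1, e2, e3, e4, e5, e6] at h
    exact h
  have h4 := Finset.sum_le_sum fun x (_ : x ∈ (Finset.univ : Finset G)) => hpt x
  rw [← Finset.mul_sum] at h4
  simp only [Finset.sum_add_distrib, Finset.sum_sub_distrib, ← Finset.mul_sum,
    ← Finset.sum_div] at h4
  rw [sum_mul_char_zero hα, sum_mul_char_zero hβ, sum_mul_char_zero (two_ne hodd hχ),
    sum_mul_char_zero (two_ne hodd hψ), sum_mul_char_zero (two_ne hodd hα),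
    sum_mul_char_zero (two_ne hodd hβ)] at h4
  rw [Finset.sum_const, Finset.sum_const, Finset.card_univ, nsmul_eq_mul, nsmul_eq_mul] at h4
  rw [hB]
  have hn : (0 : ℝ) ≤ Fintype.card G := by positivity
  nlinarith [h3, h4]

end

end Pool.Agent.SCH
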