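import Mathlib
import Pool.Agent.Lib_helper13.SDC.Norm2

/-!
# The three largest Fourier coefficients
-/

set_option autoImplicit false
set_option linter.unusedSectionVars false

namespace Pool.Agent.SCH

open Finset Pool.Agent.Lib_helper13.PL

universe u

section
variable {G : Type u} [AddCommGroup G] [Fintype G] [DecidableEq G]

lemma hat_neg (B : Finset G) (χ : AddChar G ℂ) : hat B (-χ) = (starRingEnd ℂ) (hat B χ) := by
  rw [hat_conj]
  unfold hat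
  exact Finset.sum_congr rfl fun x _ => AddChar.neg_apply _ _

lemma normSq_hat_neg (B : Finset G) (χ : AddChar G ℂ) :
    Complex.normSq (hat B (-χ)) = Complex.normSq (hat B χ) := by
  rw [hat_neg, Complex.normSq_conj]

lemma re_hat_neg (B : Finset G) (χ : AddChar G ℂ) : (hat B (-χ)).re = (hat B χ).re := by
  rw [hat_neg, Complex.conj_re]

lemma norm_hat_neg (B : Finset G) (χ : AddChar G ℂ) : ‖hat B (-χ)‖ = ‖hat B χ‖ := by
  rw [hat_neg, Complex.norm_conj]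

lemma neg_ne_self (hodd : Odd (Fintype.card G)) {χ : AddChar G ℂ} (hχ : χ ≠ 0) : -χ ≠ χ := by
  intro h
  apply two_ne hodd hχ
  rw [← neg_eq_iff_add_eq_zero]
  exact h

/-- **the two largest coefficients and the third one** -/
theorem e3_pack (hodd : Odd (Fintype.card G)) (h7 : 7 ≤ Fintype.card G) (B : Finset G) :
    ∃ (χ₁ χ₂ : AddChar G ℂ) (ρ : ℝ), χ₁ ≠ 0 ∧ χ₂ ≠ 0 ∧ χ₂ ≠ χ₁ ∧ χ₂ ≠ -χ₁ ∧ 0 ≤ ρ ∧
      ρ ≤ ‖hat B χ₂‖ ∧ ‖hat B χ₂‖ ≤ ‖hat B χ₁‖ ∧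
      ‖hat B χ₁‖ ^ 2 + ‖hat B χ₂‖ ^ 2 + ρ ^ 2 ≤
        ((Fintype.card G : ℝ) * B.card - (B.card : ℝ) ^ 2) / 2 ∧
      (Fintype.card G : ℝ) * (((GL.FF B : ℤ) : ℝ) + 3 * (B.card : ℝ) ^ 2) ≤
        4 * (B.card : ℝ) ^ 3 + 8 * ‖hat B χ₁‖ ^ 2 * ((hat B χ₁).re - ρ) +
        8 * ‖hat B χ₂‖ ^ 2 * ((hat B χ₂).re - ρ) +
        4 * ρ * ((Fintype.card G : ℝ) * B.card - (B.card : ℝ) ^ 2) := by
  classical
  set U : Finset (AddChar G ℂ) := Finset.univ with hU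
  have hcU : U.card = Fintype.card G := by rw [hU, Finset.card_univ, AddChar.card_eq]
  -- first
  have hc0 : (U.erase 0).card = Fintype.card G - 1 := by
    rw [Finset.card_erase_of_mem (Finset.mem_univ _), hcU]
  obtain ⟨χ₁, hm1, hx1⟩ := Finset.exists_max_image (U.erase 0) (fun ψ => ‖hat B ψ‖)
    (Finset.card_pos.1 (by omega))
  have n1 : χ₁ ≠ 0 := (Finset.mem_erase.1 hm1).1
  have n1' : -χ₁ ≠ 0 := neg_ne_zero.2 n1
  have n1'' : -χ₁ ≠ χ₁ := neg_ne_self hodd n1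
  have hm1' : -χ₁ ∈ (U.erase 0).erase χ₁ :=
    Finset.mem_erase.2 ⟨n1'', Finset.mem_erase.2 ⟨n1', Finset.mem_univ _⟩⟩
  set S1 := ((U.erase 0).erase χ₁).erase (-χ₁) with hS1
  have hc1 : S1.card = Fintype.card G - 3 := by
    rw [hS1, Finset.card_erase_of_mem hm1', Finset.card_erase_of_mem hm1, hc0]
    omega
  -- second
  obtain ⟨χ₂, hm2, hx2⟩ := Finset.exists_max_image S1 (fun ψ => ‖hat B ψ‖)
    (Finset.card_pos.1 (by omega))
  have hm2a := hm2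
  rw [hS1, Finset.mem_erase, Finset.mem_erase, Finset.mem_erase] at hm2a
  obtain ⟨n21, n22, n2, -⟩ := hm2a
  have n2' : -χ₂ ≠ 0 := neg_ne_zero.2 n2
  have n2'' : -χ₂ ≠ χ₂ := neg_ne_self hodd n2
  have hm2' : -χ₂ ∈ S1.erase χ₂ := by
    rw [hS1]
    refine Finset.mem_erase.2 ⟨n2'', Finset.mem_erase.2 ⟨?_, Finset.mem_erase.2 ⟨?_,
      Finset.mem_erase.2 ⟨n2', Finset.mem_univ _⟩⟩⟩⟩
    · intro h; exact n22 (neg_injective h)
    · intro h; exact n21 (by rw [← h, neg_neg])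
  set S2 := (S1.erase χ₂).erase (-χ₂) with hS2
  have hc2 : S2.card = Fintype.card G - 5 := by
    rw [hS2, Finset.card_erase_of_mem hm2', Finset.card_erase_of_mem hm2, hc1]
    omega
  -- third
  obtain ⟨χ₃, hm3, hx3⟩ := Finset.exists_max_image S2 (fun ψ => ‖hat B ψ‖)
    (Finset.card_pos.1 (by omega))
  have hm3a := hm3
  rw [hS2, Finset.mem_erase, Finset.mem_erase, hS1, Finset.mem_erase, Finset.mem_erase,
    Finset.mem_erase] at hm3a
  obtain ⟨n31, n32, n33, n34, n3, -⟩ := hm3a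
  have n3' : -χ₃ ≠ 0 := neg_ne_zero.2 n3
  have n3'' : -χ₃ ≠ χ₃ := neg_ne_self hodd n3
  have hm3' : -χ₃ ∈ S2.erase χ₃ := by
    rw [hS2, hS1]
    refine Finset.mem_erase.2 ⟨n3'', Finset.mem_erase.2 ⟨?_, Finset.mem_erase.2 ⟨?_,
      Finset.mem_erase.2 ⟨?_, Finset.mem_erase.2 ⟨?_,
      Finset.mem_erase.2 ⟨n3', Finset.mem_univ _⟩⟩⟩⟩⟩⟩
    · intro h; exact n32 (neg_injective h)
    · intro h; exact n31 (by rw [← h, neg_neg])
    · intro h; exact n34 (neg_injective h)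
    · intro h; exact n33 (by rw [← h, neg_neg])
  -- the sums
  have hp := parseval B
  have hc := cubic B
  rw [← hU] at hp hc
  rw [← Finset.add_sum_erase _ _ (Finset.mem_univ (0 : AddChar G ℂ)),
    ← Finset.add_sum_erase _ _ hm1, ← Finset.add_sum_erase _ _ hm1', ← hS1,
    ← Finset.add_sum_erase _ _ hm2, ← Finset.add_sum_erase _ _ hm2', ← hS2] at hp hc
  have h0 : hat B (0 : AddChar G ℂ) = (B.card : ℂ) := hat_zero B
  have h0' : Complex.normSq (hat B (0 : AddChar G ℂ)) = (B.card : ℝ) ^ 2 := by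
    rw [h0, Complex.normSq_natCast]
    ring
  have h0'' : (hat B (0 : AddChar G ℂ)).re = (B.card : ℝ) := by
    rw [h0, Complex.natCast_re]
  rw [h0', normSq_hat_neg, normSq_hat_neg] at hp
  rw [h0', h0'', normSq_hat_neg, normSq_hat_neg, re_hat_neg, re_hat_neg] at hc
  set ρ := ‖hat B χ₃‖ with hρ
  have hρ0 : 0 ≤ ρ := norm_nonneg _
  have hρ2 : ρ ^ 2 = Complex.normSq (hat B χ₃) := by rw [hρ, Complex.sq_norm]
  have hlow : 2 * ρ ^ 2 ≤ ∑ ψ ∈ S2, Complex.normSq (hat B ψ) := by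
    rw [← Finset.add_sum_erase _ _ hm3, ← Finset.add_sum_erase _ _ hm3', normSq_hat_neg, ← hρ2]
    have : 0 ≤ ∑ ψ ∈ (S2.erase χ₃).erase (-χ₃), Complex.normSq (hat B ψ) :=
      Finset.sum_nonneg fun ψ _ => Complex.normSq_nonneg _
    linarith
  have hup : ∑ ψ ∈ S2, Complex.normSq (hat B ψ) * (hat B ψ).re ≤
      ∑ ψ ∈ S2, Complex.normSq (hat B ψ) * ρ := by
    refine Finset.sum_le_sum fun ψ hψ => ?_
    exact mul_le_mul_of_nonneg_left ((Complex.re_le_norm _).trans (hx3 ψ hψ))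
      (Complex.normSq_nonneg _)
  rw [← Finset.sum_mul] at hup
  have e1 : ‖hat B χ₁‖ ^ 2 = Complex.normSq (hat B χ₁) := Complex.sq_norm _
  have e2 : ‖hat B χ₂‖ ^ 2 = Complex.normSq (hat B χ₂) := Complex.sq_norm _
  refine ⟨χ₁, χ₂, ρ, n1, n2, n22, n21, hρ0, ?_, ?_, ?_, ?_⟩
  · exact hx2 χ₃ (Finset.mem_of_mem_erase (Finset.mem_of_mem_erase hm3))
  · exact hx1 χ₂ (Finset.mem_erase.2 ⟨n2, Finset.mem_univ _⟩)
  · rw [e1, e2]
    linarith
  · rw [e1, e2]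
    have e : ((GL.FF B : ℤ) : ℝ) + 3 * (B.card : ℝ) ^ 2 = 4 * ((GL.sch B : ℤ) : ℝ) := by
      unfold GL.FF
      push_cast
      ring
    rw [e]
    rw [TT_eq_sch] at hc
    set Q := ∑ ψ ∈ S2, Complex.normSq (hat B ψ) with hQ
    have hQ2 : Q = (Fintype.card G : ℝ) * B.card - (B.card : ℝ) ^ 2 -
        2 * Complex.normSq (hat B χ₁) - 2 * Complex.normSq (hat B χ₂) := by linarith
    have h5 : Q * ρ = ρ * ((Fintype.card G : ℝ) * B.card - (B.card : ℝ) ^ 2) -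
        2 * Complex.normSq (hat B χ₁) * ρ - 2 * Complex.normSq (hat B χ₂) * ρ := by
      rw [hQ2]; ring
    rw [h5] at hup
    nlinarith [hc, hup]

end

end Pool.Agent.SCH
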