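import Mathlib
import Pool.Agent.Lib_helper13.SDC.Pack
import Pool.Agent.Lib_helper26.SCH.Shift

/-!
# Upper bounds for one Fourier coefficient
-/

set_option autoImplicit false
set_option linter.unusedSectionVars false

namespace Pool.Agent.SCH

open Finset Pool.Agent.GL Pool.Agent.Lib_helper13.PL

universe u

/-- a precise lower bound for the sine -/
lemma sin_lb7 {x : ℝ} (h0 : 0 ≤ x) (h1 : x ≤ 1) :
    x - x ^ 3 / 6 + x ^ 5 / 120 - x ^ 7 / 5040 - x ^ 8 / 20160 ≤ Real.sin x := by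
  have hn : ‖(x : ℂ) * Complex.I‖ = x := by
    rw [norm_mul, Complex.norm_I, mul_one, Complex.norm_real, Real.norm_of_nonneg h0]
  have h := Complex.exp_bound' (x := (x : ℂ) * Complex.I) (n := 8) (by
    rw [hn]; norm_num; linarith)
  rw [hn] at h
  have e : ∑ m ∈ Finset.range 8, ((x : ℂ) * Complex.I) ^ m / (m.factorial : ℂ) =
      ((1 - x ^ 2 / 2 + x ^ 4 / 24 - x ^ 6 / 720 : ℝ) : ℂ) +
      ((x - x ^ 3 / 6 + x ^ 5 / 120 - x ^ 7 / 5040 : ℝ) : ℂ) * Complex.I := by
    have i2 : Complex.I ^ 2 = -1 := Complex.I_sq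
    have i3 : Complex.I ^ 3 = -Complex.I := Complex.I_pow_three
    have i4 : Complex.I ^ 4 = 1 := Complex.I_pow_four
    have i5 : Complex.I ^ 5 = Complex.I := by
      rw [show (5:ℕ) = 4 + 1 from rfl, pow_add, i4, one_mul, pow_one]
    have i6 : Complex.I ^ 6 = -1 := by
      rw [show (6:ℕ) = 4 + 2 from rfl, pow_add, i4, one_mul, i2]
    have i7 : Complex.I ^ 7 = -Complex.I := by
      rw [show (7:ℕ) = 4 + 3 from rfl, pow_add, i4, one_mul, i3]
    simp only [Finset.sum_range_succ, Finset.sum_range_zero, mul_pow, i2, i3, i4, i5, i6, i7,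
      Nat.factorial]
    push_cast
    ring
  have h2 := (Complex.abs_im_le_norm _).trans h
  rw [e, Complex.sub_im, Complex.exp_ofReal_mul_I_im, Complex.add_im, Complex.ofReal_im,
    Complex.im_ofReal_mul, Complex.I_im, zero_add, mul_one] at h2
  have h3 := (abs_le.1 h2).1
  have h4 : x ^ 8 / ((Nat.factorial 8 : ℕ) : ℝ) * 2 = x ^ 8 / 20160 := by
    norm_num [Nat.factorial]
    ring
  rw [h4] at h3
  linarith

lemma x_le_sin {x : ℝ} (h0 : 0 ≤ x) (h1 : x ≤ 0.4489) : x ≤ 1.0344 * Real.sin x := by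
  have h := sin_lb7 h0 (by linarith)
  have h2 : x ^ 2 ≤ 0.2015113 := by nlinarith
  have h3 : 0 ≤ x ^ 2 := sq_nonneg x
  have e : x - x ^ 3 / 6 + x ^ 5 / 120 - x ^ 7 / 5040 - x ^ 8 / 20160 =
      x * (1 - x ^ 2 / 6 + x ^ 4 / 120 - x ^ 6 / 5040 - x ^ 7 / 20160) := by ring
  rw [e] at h
  obtain ⟨y, hy⟩ : ∃ y, y = x ^ 2 := ⟨_, rfl⟩
  have h7 : x ^ 7 ≤ y ^ 3 / 2 := by
    have : x ^ 7 = x * y ^ 3 := by rw [hy]; ring
    rw [this]
    have : 0 ≤ y ^ 3 := by rw [hy]; positivity
    nlinarith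
  have e4 : x ^ 4 = y ^ 2 := by rw [hy]; ring
  have e6 : x ^ 6 = y ^ 3 := by rw [hy]; ring
  rw [← hy] at h2 h3
  have hy3 : y ^ 3 ≤ 0.0406072 * y := by
    have : y ^ 2 ≤ 0.0406072 := by nlinarith
    have e : y ^ 3 = y ^ 2 * y := by ring
    rw [e]
    exact mul_le_mul_of_nonneg_right this h3
  have h5 : 0.96674 ≤ 1 - x ^ 2 / 6 + x ^ 4 / 120 - x ^ 6 / 5040 - x ^ 7 / 20160 := by
    rw [e4, e6, ← hy]
    nlinarith [mul_nonneg h3 (sub_nonneg.2 h2)]
  have h6 : x * 0.96674 ≤ Real.sin x := (mul_le_mul_of_nonneg_left h5 h0).trans h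
  nlinarith

section
variable {G : Type u} [AddCommGroup G] [Fintype G] [DecidableEq G]

/-- order at least seven -/
lemma norm_hat_seven {m : ℕ} (hm : 7 ≤ m) {χ : AddChar G ℂ} {φ : G →+ ZMod m}
    (hφ : Function.Surjective φ) (h : Std χ φ) (B : Finset G) :
    ‖hat B χ‖ ≤ 1.0344 * Real.sin (Real.pi * B.card / Fintype.card G) / Real.pi *
      Fintype.card G := by
  have : NeZero m := ⟨by omega⟩
  have h1 := norm_hat_bath (by omega : 2 ≤ m) hφ h B
  refine h1.trans ?_
  have hn0 : (0 : ℝ) < Fintype.card G := by exact_mod_cast Fintype.card_pos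
  have hm0 : (0 : ℝ) < m := by positivity
  have hm7 : (7 : ℝ) ≤ m := by exact_mod_cast hm
  have hpi := Real.pi_pos
  have hpi2 := Real.pi_lt_d6
  have hx0 : 0 < Real.pi / m := by positivity
  have hx1 : Real.pi / m ≤ 0.4489 := by
    rw [div_le_iff₀ hm0]; nlinarith
  have hs := x_le_sin hx0.le hx1
  have hs0 : 0 < Real.sin (Real.pi / m) := by nlinarith
  have hsb : 0 ≤ Real.sin (Real.pi * B.card / Fintype.card G) := by
    apply Real.sin_nonneg_of_nonneg_of_le_pi (by positivity)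
    rw [div_le_iff₀ hn0]
    have : (B.card : ℝ) ≤ Fintype.card G := by exact_mod_cast Finset.card_le_univ B
    nlinarith
  have hker : (Nat.card φ.ker : ℝ) / Real.sin (Real.pi / m) ≤
      1.0344 / Real.pi * Fintype.card G := by
    have h := card_ker_mul φ hφ
    have h2 : (Fintype.card G : ℝ) = m * (Nat.card φ.ker : ℝ) := by exact_mod_cast h
    rw [div_le_iff₀ hs0, h2]
    have h4 : (0 : ℝ) ≤ (Nat.card φ.ker : ℝ) := by positivity
    have h5 : 1 ≤ 1.0344 / Real.pi * m * Real.sin (Real.pi / m) := by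
      have e : 1.0344 / Real.pi * m * Real.sin (Real.pi / m) =
        (1.0344 * Real.sin (Real.pi / m)) * (m / Real.pi) := by ring
      rw [e]
      have e2 : 1 = (Real.pi / m) * (m / Real.pi) := by field_simp
      calc (1 : ℝ) = (Real.pi / m) * (m / Real.pi) := e2
        _ ≤ _ := mul_le_mul_of_nonneg_right hs (by positivity)
    nlinarith [mul_le_mul_of_nonneg_left h5 h4]
  calc _ ≤ 1.0344 / Real.pi * Fintype.card G *
      Real.sin (Real.pi * B.card / Fintype.card G) := mul_le_mul_of_nonneg_right hker hsb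
    _ = _ := by ring

/-- the coefficient of a character of order three, in terms of the levels -/
lemma hat_three {χ : AddChar G ℂ} {φ : G →+ ZMod 3} (h : Std χ φ) (B : Finset G) :
    (hat B χ).re = ((B.filter (fun x => φ x = 0)).card : ℝ) -
      (((B.filter (fun x => φ x = 1)).card : ℝ) + (B.filter (fun x => φ x = 2)).card) / 2 ∧
    (hat B χ).im = √3 / 2 * (((B.filter (fun x => φ x = 1)).card : ℝ) -
      (B.filter (fun x => φ x = 2)).card) := by
  have hsplit : ∀ f : G → ℝ, ∑ x ∈ B, f x = ∑ x ∈ B.filter (fun x => φ x = 0), f x +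
      ∑ x ∈ B.filter (fun x => φ x = 1), f x + ∑ x ∈ B.filter (fun x => φ x = 2), f x := by
    intro f
    have h1 : ∑ x ∈ B, f x = ∑ j : ZMod 3, ∑ x ∈ B.filter (fun x => φ x = j), f x := by
      rw [Finset.sum_fiberwise]
    rw [h1]
    exact Fin.sum_univ_three (fun j : ZMod 3 => ∑ x ∈ B.filter (fun x => φ x = j), f x)
  have v0 : (0 : ZMod 3).valMinAbs = 0 := by decide
  have v1 : (1 : ZMod 3).valMinAbs = 1 := by decide
  have v2 : (2 : ZMod 3).valMinAbs = -1 := by decide
  have hcos : Real.cos (2 * Real.pi / 3) = -1 / 2 := by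
    have : 2 * Real.pi / 3 = Real.pi - Real.pi / 3 := by ring
    rw [this, Real.cos_pi_sub, Real.cos_pi_div_three]; norm_num
  have hsin : Real.sin (2 * Real.pi / 3) = √3 / 2 := by
    have : 2 * Real.pi / 3 = Real.pi - Real.pi / 3 := by ring
    rw [this, Real.sin_pi_sub, Real.sin_pi_div_three]
  constructor
  · rw [hat_re_eq B h, hsplit]
    have s0 : ∑ x ∈ B.filter (fun x => φ x = 0), Real.cos (2 * Real.pi * (φ x).valMinAbs / (3 : ℕ)) =
        (B.filter (fun x => φ x = 0)).card := by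
      rw [Finset.sum_congr rfl (g := fun _ => (1 : ℝ))]
      · simp
      · intro x hx
        rw [(Finset.mem_filter.1 hx).2, v0]; simp
    have s1 : ∑ x ∈ B.filter (fun x => φ x = 1), Real.cos (2 * Real.pi * (φ x).valMinAbs / (3 : ℕ)) =
        -((B.filter (fun x => φ x = 1)).card : ℝ) / 2 := by
      rw [Finset.sum_congr rfl (g := fun _ => (-1 / 2 : ℝ))]
      · rw [Finset.sum_const, nsmul_eq_mul]; ring
      · intro x hx
        rw [(Finset.mem_filter.1 hx).2, v1]
        push_cast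
        rw [mul_one, hcos]
    have s2 : ∑ x ∈ B.filter (fun x => φ x = 2), Real.cos (2 * Real.pi * (φ x).valMinAbs / (3 : ℕ)) =
        -((B.filter (fun x => φ x = 2)).card : ℝ) / 2 := by
      rw [Finset.sum_congr rfl (g := fun _ => (-1 / 2 : ℝ))]
      · rw [Finset.sum_const, nsmul_eq_mul]; ring
      · intro x hx
        rw [(Finset.mem_filter.1 hx).2, v2]
        push_cast
        have : 2 * Real.pi * -1 / 3 = -(2 * Real.pi / 3) := by ring
        rw [this, Real.cos_neg, hcos]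
    rw [s0, s1, s2]; ring
  · rw [hat_im_eq B h, hsplit]
    have s0 : ∑ x ∈ B.filter (fun x => φ x = 0), Real.sin (2 * Real.pi * (φ x).valMinAbs / (3 : ℕ)) =
        0 := by
      apply Finset.sum_eq_zero
      intro x hx
      rw [(Finset.mem_filter.1 hx).2, v0]; simp
    have s1 : ∑ x ∈ B.filter (fun x => φ x = 1), Real.sin (2 * Real.pi * (φ x).valMinAbs / (3 : ℕ)) =
        √3 / 2 * ((B.filter (fun x => φ x = 1)).card : ℝ) := by
      rw [Finset.sum_congr rfl (g := fun _ => (√3 / 2 : ℝ))]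
      · rw [Finset.sum_const, nsmul_eq_mul]; ring
      · intro x hx
        rw [(Finset.mem_filter.1 hx).2, v1]
        push_cast
        rw [mul_one, hsin]
    have s2 : ∑ x ∈ B.filter (fun x => φ x = 2), Real.sin (2 * Real.pi * (φ x).valMinAbs / (3 : ℕ)) =
        -(√3 / 2) * ((B.filter (fun x => φ x = 2)).card : ℝ) := by
      rw [Finset.sum_congr rfl (g := fun _ => (-(√3 / 2) : ℝ))]
      · rw [Finset.sum_const, nsmul_eq_mul]; ring
      · intro x hx
        rw [(Finset.mem_filter.1 hx).2, v2]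
        push_cast
        have : 2 * Real.pi * -1 / 3 = -(2 * Real.pi / 3) := by ring
        rw [this, Real.sin_neg, hsin]
    rw [s0, s1, s2]; ring

lemma level_le {m : ℕ} [NeZero m] (φ : G →+ ZMod m) (B : Finset G) (j : ZMod m) :
    (B.filter (fun x => φ x = j)).card ≤ Nat.card φ.ker := by
  classical
  rcases (B.filter (fun x => φ x = j)).eq_empty_or_nonempty with h | ⟨y, hy⟩
  · rw [h]; simp
  have hy2 := (Finset.mem_filter.1 hy).2
  have hfin : Nat.card φ.ker = (Finset.univ.filter (fun x : G => φ x = 0)).card := by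
    rw [Nat.card_eq_fintype_card, Fintype.card_subtype]
    congr 1
    ext x
    simp [AddMonoidHom.mem_ker]
  rw [hfin, ← Finset.card_image_of_injective (B.filter (fun x => φ x = j)) (sub_left_injective (b := y))]
  apply Finset.card_le_card
  intro z hz
  obtain ⟨x, hx, rfl⟩ := Finset.mem_image.1 hz
  rw [Finset.mem_filter]
  exact ⟨Finset.mem_univ _, by rw [map_sub, (Finset.mem_filter.1 hx).2, hy2, sub_self]⟩

lemma tri_le {x y z l : ℝ} (x0 : 0 ≤ x) (y0 : 0 ≤ y) (z0 : 0 ≤ z) (xl : x ≤ l) (yl : y ≤ l)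
    (zl : z ≤ l) : x ^ 2 + y ^ 2 + z ^ 2 - x * y - y * z - x * z ≤ l ^ 2 := by
  have sq : ∀ u v : ℝ, 0 ≤ u → 0 ≤ v → u ≤ l → v ≤ l → (u - v) ^ 2 ≤ l ^ 2 := by
    intro u v u0 v0 ul vl
    apply sq_le_sq'
    · linarith
    · linarith
  rcases eq_or_ne x y with hxy | hxy
  · have := sq x z x0 z0 xl zl
    rw [← hxy]
    nlinarith
  rcases le_total 0 ((x - y) * (y - z)) with h1 | h1
  · have := sq x z x0 z0 xl zl
    nlinarith
  rcases le_total 0 ((y - x) * (x - z)) with h2 | h2
  · have := sq y z y0 z0 yl zl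
    nlinarith
  · have := sq x y x0 y0 xl yl
    have h3 : 0 ≤ (x - z) * (z - y) := by
      by_contra hc
      push Not at hc
      -- all three products negative is impossible
      have e : ((x - y) * (y - z)) * ((y - x) * (x - z)) =
        -((x - y) ^ 2 * ((y - z) * (x - z))) := by ring
      have p1 : 0 ≤ ((x - y) * (y - z)) * ((y - x) * (x - z)) :=
        mul_nonneg_of_nonpos_of_nonpos h1 h2
      rw [e] at p1
      have p2 : 0 < (y - z) * (x - z) := by nlinarith
      have p3 : 0 < (x - y) ^ 2 := by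
        have := sub_ne_zero.2 hxy
        positivity
      have := mul_pos p3 p2
      linarith
    nlinarith

/-- order three -/
lemma hat_three_le {χ : AddChar G ℂ} {φ : G →+ ZMod 3} (hφ : Function.Surjective φ)
    (h : Std χ φ) (B : Finset G) :
    3 * ‖hat B χ‖ ≤ Fintype.card G ∧
      2 * (hat B χ).re ≤ (Fintype.card G : ℝ) - B.card := by
  obtain ⟨h1, h2⟩ := hat_three h B
  have hker := card_ker_mul φ hφ
  have a0 := level_le φ B 0
  have a1 := level_le φ B 1
  have a2 := level_le φ B 2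
  have hsum : B.card = (B.filter (fun x => φ x = 0)).card + (B.filter (fun x => φ x = 1)).card +
      (B.filter (fun x => φ x = 2)).card := by
    have h1 := Finset.card_eq_sum_card_fiberwise (f := φ) (s := B) (t := Finset.univ)
      (fun x _ => Finset.mem_univ _)
    rw [h1]
    exact Fin.sum_univ_three (fun j : ZMod 3 => (B.filter (fun x => φ x = j)).card)
  set c0 := (B.filter (fun x => φ x = 0)).card
  set c1 := (B.filter (fun x => φ x = 1)).card
  set c2 := (B.filter (fun x => φ x = 2)).card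
  set l := Nat.card φ.ker
  have r0 : (c0 : ℝ) ≤ l := by exact_mod_cast a0
  have r1 : (c1 : ℝ) ≤ l := by exact_mod_cast a1
  have r2 : (c2 : ℝ) ≤ l := by exact_mod_cast a2
  have p0 : (0 : ℝ) ≤ c0 := by positivity
  have p1 : (0 : ℝ) ≤ c1 := by positivity
  have p2 : (0 : ℝ) ≤ c2 := by positivity
  have rn : (Fintype.card G : ℝ) = 3 * l := by exact_mod_cast hker
  have rb : (B.card : ℝ) = c0 + c1 + c2 := by exact_mod_cast hsum
  have h33 : √3 ^ 2 = 3 := Real.sq_sqrt (by norm_num)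
  constructor
  · have hsq : ‖hat B χ‖ ^ 2 ≤ (l : ℝ) ^ 2 := by
      rw [Complex.sq_norm, Complex.normSq_apply, h1, h2]
      have e : ((c0 : ℝ) - (c1 + c2) / 2) * (c0 - (c1 + c2) / 2) +
          √3 / 2 * ((c1 : ℝ) - c2) * (√3 / 2 * (c1 - c2)) =
          (c0 : ℝ) ^ 2 + c1 ^ 2 + c2 ^ 2 - c0 * c1 - c1 * c2 - c0 * c2 := by
        have : √3 / 2 * ((c1 : ℝ) - c2) * (√3 / 2 * (c1 - c2)) =
          √3 ^ 2 / 4 * ((c1 : ℝ) - c2) ^ 2 := by ring
        rw [this, h33]; ring
      rw [e]
      exact tri_le p0 p1 p2 r0 r1 r2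
    have := abs_le_of_sq_le_sq' hsq (by positivity)
    rw [rn]
    linarith [this.2]
  · rw [h1, rn, rb]
    linarith

end

end Pool.Agent.SCH
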