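import Mathlib
import Pool.Agent.Lib_helper13.SDC.N1
import Pool.Agent.Lib_helper60.SCH.SK
import Pool.Agent.Lib_helper93.T4.Hole

/-!
# The hole from the norm form of the two character inequality, `β ≤ 6.8 / 11`
-/

set_option autoImplicit false
set_option linter.unusedSectionVars false

namespace Pool.Agent.SCH

open Finset Pool.Agent.GL Pool.Agent.Lib_helper42.RS Pool.Agent.Lib_helper13.PL

universe u

/-- the real inequality behind `hole_E3` -/
def RAStmt : Prop :=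
  ∀ (b F N1 N2 rho R1 R2 r s : ℝ),
    ((0.56 ≤ b ∧ b ≤ 6.8 / 11 ∧ s = 0.3175 ∧ -0.00182 ≤ F) ∨
      (0.6 ≤ b ∧ b ≤ 6.8 / 11 ∧ s = 0.4445 ∧ -0.00074 ≤ F)) →
    N2 ≤ N1 → rho ≤ N2 → 0 ≤ rho → R1 ≤ N1 → R2 ≤ N2 → N1 + N2 ≤ 0.452 → R1 + R2 ≤ 4 / 9 →
    N1 ^ 2 + N2 ^ 2 + rho ^ 2 ≤ (b - b ^ 2) / 2 → R1 ≤ r → R2 ≤ r →
    2.5243 * r ≤ 3 / Real.pi * Real.sin (Real.pi * b) *
      Real.cos (Real.pi * (b / 2 - s / 12)) →
    (N1 ≤ 1.0344 * Real.sin (Real.pi * b) / Real.pi ∨ (N1 ≤ 1 / 3 ∧ R1 ≤ (1 - b) / 2)) →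
    (F + 3 * b ^ 2 - 4 * b ^ 3) / 4 ≤
      2 * N1 ^ 2 * (R1 - rho) + 2 * N2 ^ 2 * (R2 - rho) + rho * (b - b ^ 2) → False

/-- the left side of the shift inequality in terms of the real part only -/
lemma shift_low (R I : ℝ) (hR : 0 ≤ R) :
    2.5243 * R ≤ √3 * √(R ^ 2 + I ^ 2) + √3 / 2 * |R| - |I| / 2 := by
  have h3 := T4.sqrt3_bounds.1
  have h11 : 3.31662 < √11 := by rw [Real.lt_sqrt (by norm_num)]; norm_num
  have h112 : √11 ^ 2 = 11 := Real.sq_sqrt (by norm_num)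
  have h32 : √3 ^ 2 = 3 := Real.sq_sqrt (by norm_num)
  have hI : |I| ^ 2 = I ^ 2 := sq_abs I
  have hI0 : 0 ≤ |I| := abs_nonneg I
  have hN2 : √(R ^ 2 + I ^ 2) ^ 2 = R ^ 2 + I ^ 2 := Real.sq_sqrt (by positivity)
  have hN0 : 0 ≤ √(R ^ 2 + I ^ 2) := Real.sqrt_nonneg _
  set N := √(R ^ 2 + I ^ 2)
  have key : √11 / 2 * R + |I| / 2 ≤ √3 * N := by
    apply le_of_sq_le_sq _ (by positivity)
    have e1 : (√3 * N) ^ 2 = 3 * (R ^ 2 + |I| ^ 2) := by
      rw [mul_pow, h32, hN2, hI]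
    have e2 : (√11 / 2 * R + |I| / 2) ^ 2 = 11 / 4 * R ^ 2 + √11 / 2 * (R * |I|) +
        |I| ^ 2 / 4 := by
      have : (√11 / 2 * R + |I| / 2) ^ 2 = √11 ^ 2 / 4 * R ^ 2 + √11 / 2 * (R * |I|) +
        |I| ^ 2 / 4 := by ring
      rw [this, h112]
    rw [e1, e2]
    nlinarith [sq_nonneg (R - √11 * |I|)]
  rw [abs_of_nonneg hR]
  nlinarith

section
variable {G : Type u} [AddCommGroup G] [Fintype G] [DecidableEq G]

/-- **the hole**, `14/25 ≤ β ≤ 34/55` -/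
theorem hole_E3 (hRA : RAStmt) {B : Finset G} {m : ℕ} {χ : AddChar G ℂ} {φ : G →+ ZMod m}
    (ctx : Ctx B χ φ) (hodd : Odd (Fintype.card G)) (h5 : ¬ 5 ∣ Fintype.card G)
    (h7 : 7 ≤ Fintype.card G) {D : ℤ} (hD : fG G (B.card + 1) ≤ fG G B.card + D)
    {s b F : ℝ} (hb : b = (B.card : ℝ) / (Fintype.card G : ℝ))
    (hF : F = ((GL.FF B : ℤ) : ℝ) / (Fintype.card G : ℝ) ^ 2)
    (hs : (D : ℝ) + 3 ≤ s * Fintype.card G)
    (h : (0.56 ≤ b ∧ b ≤ 6.8 / 11 ∧ s = 0.3175 ∧ -0.00182 ≤ F) ∨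
      (0.6 ≤ b ∧ b ≤ 6.8 / 11 ∧ s = 0.4445 ∧ -0.00074 ≤ F)) :
    ∀ x : G, 6 * |(φ x).valMinAbs| ≤ m → x ∈ B := by
  have hn0 : (0:ℝ) < (Fintype.card G : ℝ) := by exact_mod_cast Fintype.card_pos
  have hb1 : 0.56 ≤ b ∧ b ≤ 6.8 / 11 := by
    rcases h with h | h
    · exact ⟨h.1, h.2.1⟩
    · exact ⟨by linarith [h.1], h.2.1⟩
  have hFl : -0.00182 ≤ F := by
    rcases h with h | h
    · exact h.2.2.2
    · linarith [h.2.2.2]
  have hs1 : s ≤ 0.4445 := by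
    rcases h with h | h
    · rw [h.2.2.1]; norm_num
    · rw [h.2.2.1]
  have hbn : b * (Fintype.card G : ℝ) = B.card := by rw [hb]; field_simp
  have hB1 : B.card < Fintype.card G := by
    have : (B.card : ℝ) < (Fintype.card G : ℝ) := by rw [← hbn]; nlinarith
    exact_mod_cast this
  have hB2 : Fintype.card G ≤ 2 * B.card := by
    have : (Fintype.card G : ℝ) ≤ 2 * (B.card : ℝ) := by rw [← hbn]; nlinarith
    exact_mod_cast this
  have hbpos : 0 < b := by linarith [hb1.1]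
  -- the order
  have hm : NeZero m := ⟨by have := ctx.hm; omega⟩
  have hdvd : m ∣ Fintype.card G := ⟨_, card_ker_mul φ ctx.surj⟩
  have hmodd : m % 2 = 1 := Nat.odd_iff.mp (Odd.of_dvd_nat hodd hdvd)
  have hm5 : 5 ≤ m := by have := ctx.hm; omega
  -- `0 ∈ B`
  have h0 : (0 : G) ∈ B := by
    apply zero_mem_slope ctx.maxi hD
    have e1 : ((Bᶜ.card : ℤ) : ℝ) = (Fintype.card G : ℝ) - B.card := by
      push_cast
      rw [Finset.card_compl, Nat.cast_sub hB1.le]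
    have : (D : ℝ) + 4 * ((Bᶜ.card : ℤ) : ℝ) < 6 * (B.card : ℝ) + 1 := by
      rw [e1, ← hbn]
      have : s * (Fintype.card G : ℝ) ≤ 0.4445 * (Fintype.card G : ℝ) :=
        mul_le_mul_of_nonneg_right hs1 hn0.le
      nlinarith [mul_le_mul_of_nonneg_right hb1.1 hn0.le]
    exact_mod_cast this
  -- positivity of the real part
  have hpos2 : 0 < F + 3 * b ^ 2 - 4 * b ^ 3 := by
    have : 0.6 ≤ b ^ 2 * (3 - 4 * b) * 4 := by nlinarith [hb1.1, hb1.2]
    nlinarith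
  have hfou := ctx.fou
  have hbb : 0 < b - b ^ 2 := by nlinarith [hb1.1, hb1.2]
  have hRpos : 0 < (hat B χ).re / Fintype.card G := by
    by_contra hc
    push Not at hc
    have e1 : ((GL.FF B : ℤ) : ℝ) = F * (Fintype.card G : ℝ) ^ 2 := by rw [hF]; field_simp
    rw [e1, ← hbn] at hfou
    set n : ℝ := (Fintype.card G : ℝ) with hn
    have e2 : (hat B χ).re = ((hat B χ).re / n) * n := by field_simp
    rw [e2] at hfou
    set R := (hat B χ).re / n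
    have h6 : n ^ 3 * (F + 3 * b ^ 2) ≤ n ^ 3 * (4 * b ^ 3 + 4 * R * (b - b ^ 2)) := by
      calc _ = n * (F * n ^ 2 + 3 * (b * n) ^ 2) := by ring
        _ ≤ _ := hfou
        _ = _ := by ring
    have h7 := le_of_mul_le_mul_left h6 (by positivity)
    nlinarith [mul_nonneg (neg_nonneg.2 hc) hbb.le]
  subst hb
  by_cases hbig : 3 / Real.pi * Real.sin (Real.pi * ((B.card : ℝ) / Fintype.card G)) *
        Real.cos (Real.pi * ((B.card : ℝ) / Fintype.card G / 2 - s / 12)) <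
      √3 * √(((hat B χ).re / Fintype.card G) ^ 2 + ((hat B χ).im / Fintype.card G) ^ 2) +
        √3 / 2 * |(hat B χ).re / Fintype.card G| - |(hat B χ).im / Fintype.card G| / 2
  · exact hole_of_big hm5 hmodd ctx.surj ctx.std ctx.maxi hB2 hD hs (by linarith) h0 hbig
  exfalso
  push Not at hbig
  have hlow := (shift_low _ ((hat B χ).im / Fintype.card G) hRpos.le).trans hbig
  obtain ⟨χ₁, χ₂, ρ, n1, n2, n21, n22, hρ0, hρ2, h21, hP, hE⟩ := e3_pack hodd h7 B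
  have hN := two_norm hodd n1 n2 n21 n22 B
  have hR := two_char hodd n1 n2 n21 n22 B
  have hr1 := ctx.largest χ₁ n1
  have hr2 := ctx.largest χ₂ n2
  -- the order of the first character
  have hord : ‖hat B χ₁‖ ≤ 1.0344 * Real.sin (Real.pi * B.card / Fintype.card G) / Real.pi *
      Fintype.card G ∨
      (3 * ‖hat B χ₁‖ ≤ Fintype.card G ∧ 2 * (hat B χ₁).re ≤ (Fintype.card G : ℝ) - B.card) := by
    obtain ⟨q, hq2, φ₁, hsurj, hstd⟩ := exists_zmod χ₁ n1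
    have : NeZero q := ⟨by omega⟩
    have hqd : q ∣ Fintype.card G := ⟨_, card_ker_mul φ₁ hsurj⟩
    have hqodd : q % 2 = 1 := Nat.odd_iff.mp (Odd.of_dvd_nat hodd hqd)
    have hq5 : q ≠ 5 := by rintro rfl; exact h5 hqd
    rcases Nat.lt_or_ge q 7 with hq | hq
    · right
      have hq3 : q = 3 := by omega
      subst hq3
      exact hat_three_le hsurj hstd B
    · left
      exact norm_hat_seven hq hsurj hstd B
  set n : ℝ := (Fintype.card G : ℝ) with hn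
  set b : ℝ := (B.card : ℝ) / n with hbd
  have eB : (B.card : ℝ) = b * n := by rw [hbd]; field_simp
  have eF : ((GL.FF B : ℤ) : ℝ) = F * n ^ 2 := by rw [hF]; field_simp
  refine hRA b F (‖hat B χ₁‖ / n) (‖hat B χ₂‖ / n) (ρ / n) ((hat B χ₁).re / n)
    ((hat B χ₂).re / n) ((hat B χ).re / n) s h ?_ ?_ ?_ ?_ ?_ ?_ ?_ ?_ ?_ ?_ hlow ?_ ?_
  · exact div_le_div_of_nonneg_right h21 hn0.le
  · exact div_le_div_of_nonneg_right hρ2 hn0.le
  · positivity
  · exact div_le_div_of_nonneg_right (Complex.re_le_norm _) hn0.le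
  · exact div_le_div_of_nonneg_right (Complex.re_le_norm _) hn0.le
  · rw [← add_div, div_le_iff₀ hn0]; exact hN
  · rw [← add_div, div_le_iff₀ hn0]; exact hR
  · rw [div_pow, div_pow, div_pow, ← add_div, ← add_div, div_le_iff₀ (by positivity)]
    refine hP.trans (le_of_eq ?_)
    rw [eB]; ring
  · exact div_le_div_of_nonneg_right hr1 hn0.le
  · exact div_le_div_of_nonneg_right hr2 hn0.le
  · rcases hord with h | ⟨ha, hc⟩
    · left
      rw [div_le_iff₀ hn0]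
      have e : Real.pi * (B.card : ℝ) / n = Real.pi * b := by rw [eB]; field_simp
      rw [e] at h
      exact h
    · right
      constructor
      · rw [div_le_iff₀ hn0]; linarith
      · rw [div_le_iff₀ hn0]
        rw [eB] at hc
        linarith
  · rw [eB, eF] at hE
    have h6 : 4 * n ^ 3 * ((F + 3 * b ^ 2 - 4 * b ^ 3) / 4) ≤
        4 * n ^ 3 * (2 * (‖hat B χ₁‖ / n) ^ 2 * ((hat B χ₁).re / n - ρ / n) +
          2 * (‖hat B χ₂‖ / n) ^ 2 * ((hat B χ₂).re / n - ρ / n) + ρ / n * (b - b ^ 2)) := by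
      have e1 : 4 * n ^ 3 * (2 * (‖hat B χ₁‖ / n) ^ 2 * ((hat B χ₁).re / n - ρ / n) +
          2 * (‖hat B χ₂‖ / n) ^ 2 * ((hat B χ₂).re / n - ρ / n) + ρ / n * (b - b ^ 2)) =
          8 * ‖hat B χ₁‖ ^ 2 * ((hat B χ₁).re - ρ) + 8 * ‖hat B χ₂‖ ^ 2 * ((hat B χ₂).re - ρ) +
          4 * ρ * (n * (b * n) - (b * n) ^ 2) := by
        field_simp
        ring
      rw [e1]
      have e2 : 4 * n ^ 3 * ((F + 3 * b ^ 2 - 4 * b ^ 3) / 4) =
        n * (F * n ^ 2 + 3 * (b * n) ^ 2) - 4 * (b * n) ^ 3 := by ring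
      rw [e2]
      linarith
    exact le_of_mul_le_mul_left h6 (by positivity)

end

end Pool.Agent.SCH
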