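import Mathlib
import Pool.Agent.Lib_helper13.SDC.Hole3
import Pool.Agent.Lib_helper25.LB.Slope4
import Pool.Agent.Lib_helper25.LB.Lay2

/-!
# The range `14/25 < β ≤ 34/55`
-/

set_option autoImplicit false
set_option linter.unusedSectionVars false

namespace Pool.Agent.SCH

open Finset Pool.Agent.GL Pool.Agent.Lib_helper42.RS Pool.Agent.Lib_helper13.PL

universe u

section
variable {G : Type u} [AddCommGroup G] [Fintype G] [DecidableEq G]

lemma not_five_dvd {e : ℕ} (he : ∀ g : G, e • g = 0) (h5 : ¬ 5 ∣ e) :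
    ¬ 5 ∣ Fintype.card G := by
  intro h
  have : Fact (Nat.Prime 5) := ⟨by norm_num⟩
  obtain ⟨g, hg⟩ := exists_prime_addOrderOf_dvd_card 5 h
  apply h5
  rw [← hg, addOrderOf_dvd_iff_nsmul_eq_zero]
  exact he g

/-- **composite exponent `≥ 21`, `14/25 < β ≤ 34/55`** -/
theorem e3_range (hRA : RAStmt) {B : Finset G} {m : ℕ} {χ : AddChar G ℂ} {φ : G →+ ZMod m}
    (ctx : Ctx B χ φ) (hodd : Odd (Fintype.card G)) (hb1 : 14 * Fintype.card G < 25 * B.card)
    (hb2 : 55 * B.card ≤ 34 * Fintype.card G) (hf : fG G B.card ≤ 0)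
    {e : ℕ} [NeZero e] (φe : G →+ ZMod e) (hφe : Function.Surjective φe)
    (he : ∀ g : G, e • g = 0) (hl : 2 ≤ Nat.card φe.ker) (he21 : 21 ≤ e) (h5 : ¬ 5 ∣ e)
    (hp : ¬ e.Prime) : False := by
  have hn0 : (0:ℝ) < (Fintype.card G : ℝ) := by exact_mod_cast Fintype.card_pos
  have hnl : Fintype.card G = e * Nat.card φe.ker := card_ker_mul φe hφe
  have h42 : 42 ≤ Fintype.card G := by
    rw [hnl]
    calc 42 = 21 * 2 := by norm_num
      _ ≤ _ := Nat.mul_le_mul he21 hl
  have hm : NeZero m := ⟨by have := ctx.hm; omega⟩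
  have h5n := not_five_dvd he h5
  obtain ⟨D, hD⟩ : ∃ D : ℤ, D = fG G (B.card + 1) - fG G B.card := ⟨_, rfl⟩
  obtain ⟨s1, s2, -⟩ := slope_num hodd hb1 (by omega) hf ctx.triv φe hφe he hl he21 h5 hp hD
  have hD' : fG G (B.card + 1) ≤ fG G B.card + D := by linarith
  have hlow : ∀ c : ℕ, 0 < c → c ≤ e →
      -4 / (5 * (c : ℝ) ^ 2) ≤ ((GL.FF B : ℤ) : ℝ) / (Fintype.card G : ℝ) ^ 2 := by
    intro c hc0 hc
    have h1 := fG_low (b := B.card) (by omega) φe hφe hc
    have h2 := ctx.big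
    have hcZ : (0 : ℤ) < c := by exact_mod_cast hc0
    have hcR : (0 : ℝ) < c := by exact_mod_cast hc0
    have h3 : -4 * (Fintype.card G : ℤ) ^ 2 ≤ 5 * (c : ℤ) ^ 2 * GL.FF B := by
      refine h1.trans ?_
      exact mul_le_mul_of_nonneg_left h2.le (by positivity)
    have h4 : -4 * (Fintype.card G : ℝ) ^ 2 ≤ 5 * (c : ℝ) ^ 2 * ((GL.FF B : ℤ) : ℝ) := by
      exact_mod_cast h3
    rw [div_le_div_iff₀ (by positivity) (by positivity)]
    linarith
  have hbR : (B.card : ℝ) / (Fintype.card G : ℝ) ≤ 6.8 / 11 := by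
    rw [div_le_div_iff₀ hn0 (by norm_num)]
    have : (55 : ℝ) * B.card ≤ 34 * Fintype.card G := by exact_mod_cast hb2
    linarith
  have hbL : 0.56 ≤ (B.card : ℝ) / (Fintype.card G : ℝ) := by
    rw [le_div_iff₀ hn0]
    have : (14 : ℝ) * Fintype.card G < 25 * B.card := by exact_mod_cast hb1
    linarith
  have hF21 : -0.00182 ≤ ((GL.FF B : ℤ) : ℝ) / (Fintype.card G : ℝ) ^ 2 := by
    have := hlow 21 (by norm_num) he21
    norm_num at this ⊢
    linarith
  have hA : 10000 * (D + 3) ≤ 3175 * (Fintype.card G : ℤ) → False := by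
    intro hs
    have hs' : (D : ℝ) + 3 ≤ 0.3175 * Fintype.card G := by
      have : (10000 : ℝ) * (D + 3) ≤ 3175 * Fintype.card G := by exact_mod_cast hs
      linarith
    exact hole_six ctx hodd (by omega) (hole_E3 hRA ctx hodd h5n (by omega) hD' rfl rfl hs'
      (Or.inl ⟨hbL, hbR, rfl, hF21⟩))
  rcases Nat.lt_or_ge (6 * Fintype.card G) (10 * B.card) with h6 | h6
  · rcases s2 hb2 with h | ⟨h33, h⟩
    · exact hA h
    · have hs' : (D : ℝ) + 3 ≤ 0.4445 * Fintype.card G := by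
        have : (10000 : ℝ) * (D + 3) ≤ 4445 * Fintype.card G := by exact_mod_cast h
        linarith
      have hF33 : -0.00074 ≤ ((GL.FF B : ℤ) : ℝ) / (Fintype.card G : ℝ) ^ 2 := by
        have := hlow 33 (by norm_num) h33
        norm_num at this ⊢
        linarith
      have hb6 : 0.6 ≤ (B.card : ℝ) / (Fintype.card G : ℝ) := by
        rw [le_div_iff₀ hn0]
        have : (6 : ℝ) * Fintype.card G < 10 * B.card := by exact_mod_cast h6
        linarith
      exact hole_six ctx hodd (by omega) (hole_E3 hRA ctx hodd h5n (by omega) hD' rfl rfl hs'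
        (Or.inr ⟨hb6, hbR, rfl, hF33⟩))
  · exact hA (s1 h6)

end

end Pool.Agent.SCH
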